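import Mathlib
open Finset

namespace Pool.Agent.Results.MP_af588c_co.BoundedLink

/-- sum of a product over all functions -/
lemma sum_prod_pi {I V : Type} [Fintype I] [DecidableEq I] [Fintype V] (k : I → V → ℝ) :
    ∑ z : I → V, ∏ i, k i (z i) = ∏ i, ∑ v, k i v := by
  have h := Finset.prod_univ_sum (fun _ : I => (univ : Finset V)) k
  rw [Fintype.piFinset_univ] at h
  exact h.symm

lemma marg {I V : Type} [Fintype I] [DecidableEq I] [Fintype V] (T : Finset I)
    (k k' : I → V → ℝ) (h : (I → V) → ℝ)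
    (hdep : ∀ z z' : I → V, (∀ i ∈ T, z i = z' i) → h z = h z')
    (hT : ∀ i ∈ T, k i = k' i) (hk : ∀ i v, 0 ≤ k i v) (hk' : ∀ i v, 0 ≤ k' i v)
    (hs : ∀ i, i ∉ T → ∑ v, k i v ≤ ∑ v, k' i v) (hh : ∀ z, 0 ≤ h z) :
    ∑ z : I → V, (∏ i, k i (z i)) * h z ≤ ∑ z : I → V, (∏ i, k' i (z i)) * h z := by
  classical
  set e := Equiv.piEquivPiSubtypeProd (fun i => i ∈ T) (fun _ : I => V) with he
  have key : ∀ κ : I → V → ℝ, ∑ z : I → V, (∏ i, κ i (z i)) * h z
      = ∑ u : {i // i ∈ T} → V, ∑ w : {i // ¬ i ∈ T} → V,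
        (∏ i, κ i.1 (u i)) * (∏ i, κ i.1 (w i)) * h (e.symm (u, w)) := by
    intro κ
    rw [← Fintype.sum_prod_type (f := fun q : ({i // i ∈ T} → V) × ({i // ¬ i ∈ T} → V) =>
      (∏ i, κ i.1 (q.1 i)) * (∏ i, κ i.1 (q.2 i)) * h (e.symm (q.1, q.2)))]
    refine Fintype.sum_equiv e _ _ ?_
    intro z
    have h1 : (∏ i, κ i (z i)) = (∏ i : {i // i ∈ T}, κ i.1 ((e z).1 i)) *
        (∏ i : {i // ¬ i ∈ T}, κ i.1 ((e z).2 i)) := by
      rw [← Fintype.prod_subtype_mul_prod_subtype (fun i => i ∈ T) (fun i => κ i (z i))]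
      have hsub : ∀ (i1 i2 : Fintype {i // i ∈ T}) (F : {i // i ∈ T} → ℝ),
          @Finset.prod _ _ _ (@univ _ i1) F = @Finset.prod _ _ _ (@univ _ i2) F := by
        intro i1 i2 F
        rw [Subsingleton.elim i1 i2]
      exact congrArg (fun t => t * ∏ i : {i // ¬ i ∈ T}, κ i.1 ((e z).2 i)) (hsub _ _ _)
    rw [h1]
    simp
  rw [key k, key k']
  refine Finset.sum_le_sum fun u _ => ?_
  rcases isEmpty_or_nonempty ({i // ¬ i ∈ T} → V) with hE | hN
  · simp
  obtain ⟨w0⟩ := hN
  have hc : ∀ w, h (e.symm (u, w)) = h (e.symm (u, w0)) := by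
    intro w
    apply hdep
    intro i hi
    simp [he, Equiv.piEquivPiSubtypeProd, hi]
  have h2 : ∀ κ : I → V → ℝ, ∑ w : {i // ¬ i ∈ T} → V,
        (∏ i, κ i.1 (u i)) * (∏ i, κ i.1 (w i)) * h (e.symm (u, w))
      = (∏ i, κ i.1 (u i)) * (∏ i : {i // ¬ i ∈ T}, ∑ v, κ i.1 v) * h (e.symm (u, w0)) := by
    intro κ
    rw [← sum_prod_pi (fun (i : {i // ¬ i ∈ T}) v => κ i.1 v), Finset.mul_sum, Finset.sum_mul]
    refine Finset.sum_congr rfl fun w _ => ?_
    rw [hc w]
  rw [h2, h2]
  have h3 : (∏ i : {i // i ∈ T}, k i.1 (u i)) = ∏ i : {i // i ∈ T}, k' i.1 (u i) :=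
    Finset.prod_congr rfl fun i _ => by rw [hT i.1 i.2]
  rw [h3]
  apply mul_le_mul_of_nonneg_right _ (hh _)
  apply mul_le_mul_of_nonneg_left
  · apply Finset.prod_le_prod
    · intro i _
      exact Finset.sum_nonneg fun v _ => hk _ _
    · intro i _
      exact hs i.1 i.2
  · exact Finset.prod_nonneg fun i _ => hk' _ _

lemma prod_ite_mem_const {I : Type} [Fintype I] [DecidableEq I] (T : Finset I) (f : I → ℝ)
    (c : ℝ) : ∏ i, (if i ∈ T then f i else c) = (∏ i ∈ T, f i) * c ^ (Fintype.card I - #T) := by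
  rw [Finset.prod_ite, Finset.prod_const]
  congr 2
  · ext i; simp
  · have : (univ.filter fun i => i ∉ T) = Tᶜ := by ext i; simp
    rw [this, Finset.card_compl]

section core
variable {B C V : Type} [Fintype B] [Fintype C] [Fintype V]
  [DecidableEq B] [DecidableEq C]
variable (G : V → V → V → ℝ) (N : B → Finset C)

/-- number of ordered edges -/
noncomputable def M : ℝ := ∑ x, ∑ y, ∑ z, G x y z
noncomputable def d (x y : V) : ℝ := ∑ z, G x y z
noncomputable def cn (x : V) (z : C → V) (b : B) : ℝ := ∑ v, ∏ c ∈ N b, G x v (z c)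
noncomputable def K2 (x : V) (z : C → V) (b : B) (v : V) : ℝ :=
  (∏ c ∈ N b, G x v (z c)) / cn G N x z b
noncomputable def mm (T : Finset C) (S : Finset B) (x s : V) (z : C → V) (y : B → V) : ℝ :=
  d G x s / M G * (∏ c ∈ T, G x s (z c) / d G x s) * ∏ b ∈ S, K2 G N x z b (y b)
noncomputable def ex (F : V → V → (C → V) → (B → V) → ℝ) : ℝ := ∑ x, ∑ s, ∑ z, ∑ y, F x s z y
def cc : Finset C := univ.biUnion N
noncomputable def rho (x s : V) (z : C → V) (y : B → V) : ℝ :=
  mm G N (cc N) univ x s z y * (1 / (Fintype.card V : ℝ)) ^ (Fintype.card C - #(cc N))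

variable {G N}

lemma N_sub_cc (b : B) : N b ⊆ cc N := by
  intro c hc
  exact Finset.mem_biUnion.2 ⟨b, mem_univ _, hc⟩

lemma d_nonneg (hG : ∀ x y z, 0 ≤ G x y z) (x y : V) : 0 ≤ d G x y :=
  Finset.sum_nonneg fun z _ => hG _ _ _

lemma M_nonneg (hG : ∀ x y z, 0 ≤ G x y z) : 0 ≤ M G :=
  Finset.sum_nonneg fun x _ => Finset.sum_nonneg fun y _ => Finset.sum_nonneg fun z _ => hG _ _ _

lemma cn_nonneg (hG : ∀ x y z, 0 ≤ G x y z) (x : V) (z : C → V) (b : B) : 0 ≤ cn G N x z b :=
  Finset.sum_nonneg fun z _ => Finset.prod_nonneg fun c _ => hG _ _ _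

lemma K2_nonneg (hG : ∀ x y z, 0 ≤ G x y z) (x : V) (z : C → V) (b : B) (v : V) :
    0 ≤ K2 G N x z b v :=
  div_nonneg (Finset.prod_nonneg fun c _ => hG _ _ _) (cn_nonneg hG _ _ _)

lemma mm_nonneg (hG : ∀ x y z, 0 ≤ G x y z) (T : Finset C) (S : Finset B) (x s : V)
    (z : C → V) (y : B → V) : 0 ≤ mm G N T S x s z y := by
  unfold mm
  refine mul_nonneg (mul_nonneg (div_nonneg (d_nonneg hG _ _) (M_nonneg hG)) ?_) ?_
  · exact Finset.prod_nonneg fun c _ => div_nonneg (hG _ _ _) (d_nonneg hG _ _)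
  · exact Finset.prod_nonneg fun b _ => K2_nonneg hG _ _ _ _

lemma rho_nonneg (hG : ∀ x y z, 0 ≤ G x y z) (x s : V)
    (z : C → V) (y : B → V) : 0 ≤ rho G N x s z y :=
  mul_nonneg (mm_nonneg hG _ _ _ _ _ _) (by positivity)

lemma sum_K2_le (hG : ∀ x y z, 0 ≤ G x y z) (x : V) (z : C → V) (b : B) :
    ∑ v, K2 G N x z b v ≤ 1 := by
  unfold K2
  rw [← Finset.sum_div]
  exact div_self_le_one _

lemma sum_K2_eq (x : V) (z : C → V) (b : B) (h : cn G N x z b ≠ 0) :
    ∑ v, K2 G N x z b v = 1 := by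
  unfold K2
  rw [← Finset.sum_div]
  exact div_self h

lemma cn_congr {x : V} {z z' : C → V} {b : B} (h : ∀ c ∈ N b, z c = z' c) :
    cn G N x z b = cn G N x z' b := by
  unfold cn
  refine Finset.sum_congr rfl fun v _ => Finset.prod_congr rfl fun c hc => by rw [h c hc]

lemma K2_congr {x : V} {z z' : C → V} {b : B} (v : V) (h : ∀ c ∈ N b, z c = z' c) :
    K2 G N x z b v = K2 G N x z' b v := by
  unfold K2
  rw [cn_congr h]
  congr 1
  exact Finset.prod_congr rfl fun c hc => by rw [h c hc]

/-- marginal bound -/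
lemma marginal (hG : ∀ x y z, 0 ≤ G x y z) (T : Finset C) (S : Finset B) (hT : T ⊆ cc N)
    (hST : ∀ b ∈ S, N b ⊆ T) (ψ : V → V → (C → V) → (B → V) → ℝ)
    (h0 : ∀ x s z y, 0 ≤ ψ x s z y)
    (hψ : ∀ x s z z' y y', (∀ c ∈ T, z c = z' c) → (∀ b ∈ S, y b = y' b) →
      ψ x s z y = ψ x s z' y') :
    ex (fun x s z y => rho G N x s z y * ψ x s z y) ≤
      (1 / (Fintype.card V : ℝ)) ^ ((Fintype.card C - #T) + (Fintype.card B - #S)) *
        ex (fun x s z y => mm G N T S x s z y * ψ x s z y) := by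
  unfold ex
  rw [Finset.mul_sum]
  refine Finset.sum_le_sum fun x _ => ?_
  rw [Finset.mul_sum]
  refine Finset.sum_le_sum fun s _ => ?_
  by_cases hd : d G x s = 0
  · apply le_of_eq
    have h1 : ∀ z y, rho G N x s z y = 0 := by
      intro z y; simp [rho, mm, hd]
    have h2 : ∀ z y, mm G N T S x s z y = 0 := by
      intro z y; simp [mm, hd]
    simp [h1, h2]
  have hne : Nonempty V := ⟨x⟩
  have hn : (0 : ℝ) < Fintype.card V := by exact_mod_cast Fintype.card_pos
  set r : ℝ := 1 / (Fintype.card V : ℝ) with hr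
  have hr0 : 0 ≤ r := by positivity
  have hrs : ∑ _v : V, r = 1 := by
    rw [Finset.sum_const, Finset.card_univ, nsmul_eq_mul, hr]
    field_simp
  have hds : ∑ v, G x s v / d G x s = 1 := by
    rw [← Finset.sum_div]; exact div_self hd
  set k1 : C → V → ℝ := fun c v => if c ∈ cc N then G x s v / d G x s else r with hk1
  set k1' : C → V → ℝ := fun c v => if c ∈ T then G x s v / d G x s else r with hk1'
  set k2 : (C → V) → B → V → ℝ := fun z b v => K2 G N x z b v with hk2
  set k2' : (C → V) → B → V → ℝ := fun z b v => if b ∈ S then K2 G N x z b v else r with hk2'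
  have hk1n : ∀ c v, 0 ≤ k1 c v := by
    intro c v
    simp only [hk1]
    split_ifs
    · exact div_nonneg (hG _ _ _) (d_nonneg hG _ _)
    · exact hr0
  have hk1n' : ∀ c v, 0 ≤ k1' c v := by
    intro c v
    simp only [hk1']
    split_ifs
    · exact div_nonneg (hG _ _ _) (d_nonneg hG _ _)
    · exact hr0
  have hk2n : ∀ z b v, 0 ≤ k2 z b v := fun z b v => K2_nonneg hG _ _ _ _
  have hk2n' : ∀ z b v, 0 ≤ k2' z b v := by
    intro z b v
    simp only [hk2']
    split_ifs
    · exact K2_nonneg hG _ _ _ _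
    · exact hr0
  have hk1s : ∀ c, ∑ v, k1 c v = 1 := by
    intro c
    simp only [hk1]
    split_ifs
    · exact hds
    · exact hrs
  have hk1s' : ∀ c, ∑ v, k1' c v = 1 := by
    intro c
    simp only [hk1']
    split_ifs
    · exact hds
    · exact hrs
  -- rewrite lhs and rhs
  have hL : ∀ z y, rho G N x s z y * ψ x s z y =
      d G x s / M G * ((∏ c, k1 c (z c)) * ((∏ b, k2 z b (y b)) * ψ x s z y)) := by
    intro z y
    have : (∏ c, k1 c (z c)) = (∏ c ∈ cc N, G x s (z c) / d G x s) *
        r ^ (Fintype.card C - #(cc N)) := by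
      simp only [hk1]
      exact prod_ite_mem_const (cc N) (fun c => G x s (z c) / d G x s) r
    rw [this]
    simp only [rho, mm, hk2]
    ring
  have hR : ∀ z y, r ^ ((Fintype.card C - #T) + (Fintype.card B - #S)) *
      (mm G N T S x s z y * ψ x s z y) =
      d G x s / M G * ((∏ c, k1' c (z c)) * ((∏ b, k2' z b (y b)) * ψ x s z y)) := by
    intro z y
    have h1 : (∏ c, k1' c (z c)) = (∏ c ∈ T, G x s (z c) / d G x s) *
        r ^ (Fintype.card C - #T) := by
      simp only [hk1']
      exact prod_ite_mem_const T (fun c => G x s (z c) / d G x s) r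
    have h2 : (∏ b, k2' z b (y b)) = (∏ b ∈ S, K2 G N x z b (y b)) *
        r ^ (Fintype.card B - #S) := by
      simp only [hk2']
      exact prod_ite_mem_const S (fun b => K2 G N x z b (y b)) r
    rw [h1, h2, pow_add]
    simp only [mm]
    ring
  simp only [Finset.mul_sum]
  simp only [hL, hR]
  simp only [← Finset.mul_sum]
  apply mul_le_mul_of_nonneg_left _ (div_nonneg (d_nonneg hG _ _) (M_nonneg hG))
  have step1 : ∑ z : C → V, (∏ c, k1 c (z c)) * ∑ y : B → V, (∏ b, k2 z b (y b)) * ψ x s z y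
      ≤ ∑ z : C → V, (∏ c, k1 c (z c)) * ∑ y : B → V, (∏ b, k2' z b (y b)) * ψ x s z y := by
    refine Finset.sum_le_sum fun z _ => ?_
    apply mul_le_mul_of_nonneg_left _ (Finset.prod_nonneg fun c _ => hk1n _ _)
    refine marg S (k2 z) (k2' z) (fun y => ψ x s z y) ?_ ?_ (hk2n z) (hk2n' z) ?_ ?_
    · intro y y' h
      exact hψ x s z z y y' (fun _ _ => rfl) h
    · intro b hb
      funext v
      simp [hk2, hk2', hb]
    · intro b hb
      have : ∑ v, k2' z b v = 1 := by
        simp only [hk2', if_neg hb]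
        exact hrs
      rw [this]
      exact sum_K2_le hG _ _ _
    · intro y; exact h0 _ _ _ _
  refine step1.trans ?_
  refine marg T k1 k1' (fun z => ∑ y : B → V, (∏ b, k2' z b (y b)) * ψ x s z y) ?_ ?_ hk1n hk1n' ?_ ?_
  · intro z z' h
    refine Finset.sum_congr rfl fun y _ => ?_
    rw [hψ x s z z' y y h (fun _ _ => rfl)]
    congr 1
    refine Finset.prod_congr rfl fun b _ => ?_
    simp only [hk2']
    split_ifs with hb
    · exact K2_congr _ fun c hc => h c (hST b hb hc)
    · rfl
  · intro c hc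
    funext v
    simp [hk1, hk1', hc, hT hc]
  · intro c _
    rw [hk1s, hk1s']
  · intro z
    exact Finset.sum_nonneg fun y _ => mul_nonneg (Finset.prod_nonneg fun b _ => hk2n' _ _ _) (h0 _ _ _ _)

/-- total mass one -/
lemma rho_total (hG : ∀ x y z, 0 ≤ G x y z) (h01 : ∀ x y z, G x y z ≠ 0 → G x y z = 1)
    (hM : M G ≠ 0) : ex (fun x s z y => rho G N x s z y) = 1 := by
  unfold ex
  have key : ∀ x s, ∑ z, ∑ y, rho G N x s z y = d G x s / M G := by
    intro x s
    by_cases hd : d G x s = 0
    · have h1 : ∀ z y, rho G N x s z y = 0 := by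
        intro z y; simp [rho, mm, hd]
      simp [h1, hd]
    have hne : Nonempty V := ⟨x⟩
    have hn : (0 : ℝ) < Fintype.card V := by exact_mod_cast Fintype.card_pos
    set r : ℝ := 1 / (Fintype.card V : ℝ) with hr
    have hrs : ∑ _v : V, r = 1 := by
      rw [Finset.sum_const, Finset.card_univ, nsmul_eq_mul, hr]
      field_simp
    have hds : ∑ v, G x s v / d G x s = 1 := by
      rw [← Finset.sum_div]; exact div_self hd
    set k1 : C → V → ℝ := fun c v => if c ∈ cc N then G x s v / d G x s else r with hk1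
    have hk1s : ∀ c, ∑ v, k1 c v = 1 := by
      intro c
      simp only [hk1]
      split_ifs
      · exact hds
      · exact hrs
    have hL : ∀ z y, rho G N x s z y =
        d G x s / M G * ((∏ c, k1 c (z c)) * (∏ b, K2 G N x z b (y b))) := by
      intro z y
      have : (∏ c, k1 c (z c)) = (∏ c ∈ cc N, G x s (z c) / d G x s) *
          r ^ (Fintype.card C - #(cc N)) := by
        simp only [hk1]
        exact prod_ite_mem_const (cc N) (fun c => G x s (z c) / d G x s) r
      rw [this]
      simp only [rho, mm]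
      ring
    simp only [hL]
    simp only [← Finset.mul_sum]
    have h2 : ∀ z : C → V, (∏ c, k1 c (z c)) * ∑ y : B → V, ∏ b, K2 G N x z b (y b)
        = ∏ c, k1 c (z c) := by
      intro z
      by_cases hz : (∏ c, k1 c (z c)) = 0
      · rw [hz, zero_mul]
      · have hz' : ∀ c ∈ cc N, G x s (z c) = 1 := by
          intro c hc
          apply h01
          intro h
          apply hz
          apply Finset.prod_eq_zero (mem_univ c)
          simp [hk1, hc, h]
        rw [sum_prod_pi]
        suffices h5 : ∏ b, ∑ v, K2 G N x z b v = 1 by rw [h5, mul_one]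
        apply Finset.prod_eq_one
        intro b _
        apply sum_K2_eq
        have h3 : ∏ c ∈ N b, G x s (z c) = 1 :=
          Finset.prod_eq_one fun c hc => hz' c (N_sub_cc b hc)
        have h4 : (1 : ℝ) ≤ cn G N x z b := by
          rw [← h3]
          unfold cn
          exact Finset.single_le_sum (f := fun v => ∏ c ∈ N b, G x v (z c))
            (fun v _ => Finset.prod_nonneg fun c _ => hG _ _ _) (mem_univ s)
        linarith
    simp only [h2]
    rw [sum_prod_pi, Finset.prod_eq_one fun c _ => hk1s c, mul_one]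
  simp only [key]
  simp only [← Finset.sum_div]
  exact div_self hM


lemma ex_add (F F' : V → V → (C → V) → (B → V) → ℝ) :
    ex (fun x s z y => F x s z y + F' x s z y) = ex F + ex F' := by
  simp only [ex, Finset.sum_add_distrib]

lemma ex_sub (F F' : V → V → (C → V) → (B → V) → ℝ) :
    ex (fun x s z y => F x s z y - F' x s z y) = ex F - ex F' := by
  simp only [ex, Finset.sum_sub_distrib]

lemma ex_const_mul (a : ℝ) (F : V → V → (C → V) → (B → V) → ℝ) :
    ex (fun x s z y => a * F x s z y) = a * ex F := by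
  simp only [ex, Finset.mul_sum]

lemma ex_mono {F F' : V → V → (C → V) → (B → V) → ℝ} (h : ∀ x s z y, F x s z y ≤ F' x s z y) :
    ex F ≤ ex F' := by
  unfold ex
  exact Finset.sum_le_sum fun x _ => Finset.sum_le_sum fun s _ => Finset.sum_le_sum fun z _ =>
    Finset.sum_le_sum fun y _ => h _ _ _ _

lemma ex_congr {F F' : V → V → (C → V) → (B → V) → ℝ} (h : ∀ x s z y, F x s z y = F' x s z y) :
    ex F = ex F' := by
  have : F = F' := by funext x s z y; exact h x s z y
  rw [this]

/-- expectation with respect to rho -/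
noncomputable def EP (G : V → V → V → ℝ) (N : B → Finset C)
    (F : V → V → (C → V) → (B → V) → ℝ) : ℝ := ex (fun x s z y => rho G N x s z y * F x s z y)

lemma EP_add (F F' : V → V → (C → V) → (B → V) → ℝ) :
    EP G N (fun x s z y => F x s z y + F' x s z y) = EP G N F + EP G N F' := by
  unfold EP
  rw [← ex_add]
  exact ex_congr fun x s z y => by ring

lemma EP_sum {I : Type} (t : Finset I) (F : I → V → V → (C → V) → (B → V) → ℝ) :
    EP G N (fun x s z y => ∑ i ∈ t, F i x s z y) = ∑ i ∈ t, EP G N (F i) := by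
  classical
  induction t using Finset.induction_on with
  | empty => simp [EP, ex]
  | insert a t ha ih =>
    rw [Finset.sum_insert ha, ← ih, ← EP_add]
    unfold EP
    exact ex_congr fun x s z y => by simp only [Finset.sum_insert ha]

lemma EP_const_mul (a : ℝ) (F : V → V → (C → V) → (B → V) → ℝ) :
    EP G N (fun x s z y => a * F x s z y) = a * EP G N F := by
  unfold EP
  rw [← ex_const_mul]
  exact ex_congr fun x s z y => by ring

lemma EP_const (hG : ∀ x y z, 0 ≤ G x y z) (h01 : ∀ x y z, G x y z ≠ 0 → G x y z = 1)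
    (hM : M G ≠ 0) (a : ℝ) : EP G N (fun _ _ _ _ => a) = a := by
  have h := rho_total (N := N) hG h01 hM
  unfold EP
  have : ex (fun x s z y => rho G N x s z y * a) = a * ex (fun x s z y => rho G N x s z y) := by
    rw [← ex_const_mul]
    exact ex_congr fun x s z y => by ring
  rw [this, h, mul_one]

/-- congruence on the support -/
lemma EP_congr {F F' : V → V → (C → V) → (B → V) → ℝ}
    (h : ∀ x s z y, rho G N x s z y ≠ 0 → F x s z y = F' x s z y) : EP G N F = EP G N F' := by
  unfold EP
  refine ex_congr fun x s z y => ?_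
  by_cases h0 : rho G N x s z y = 0
  · rw [h0, zero_mul, zero_mul]
  · rw [h x s z y h0]

lemma EP_mono (hG : ∀ x y z, 0 ≤ G x y z) {F F' : V → V → (C → V) → (B → V) → ℝ}
    (h : ∀ x s z y, rho G N x s z y ≠ 0 → F x s z y ≤ F' x s z y) : EP G N F ≤ EP G N F' := by
  unfold EP
  refine ex_mono fun x s z y => ?_
  by_cases h0 : rho G N x s z y = 0
  · rw [h0, zero_mul, zero_mul]
  · exact mul_le_mul_of_nonneg_left (h x s z y h0) (rho_nonneg hG _ _ _ _)

/-- logarithmic Jensen bound -/
lemma log_bound (hG : ∀ x y z, 0 ≤ G x y z) (h01 : ∀ x y z, G x y z ≠ 0 → G x y z = 1)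
    (hM : M G ≠ 0) (T : Finset C) (S : Finset B) (hT : T ⊆ cc N)
    (hST : ∀ b ∈ S, N b ⊆ T) (φ : V → V → (C → V) → (B → V) → ℝ)
    (h0 : ∀ x s z y, 0 ≤ φ x s z y)
    (hφ : ∀ x s z z' y y', (∀ c ∈ T, z c = z' c) → (∀ b ∈ S, y b = y' b) →
      φ x s z y = φ x s z' y')
    (hpos : ∀ x s z y, rho G N x s z y ≠ 0 → φ x s z y ≠ 0)
    (K : ℝ) (hK : 0 < K)
    (hsum : ex (fun x s z y => if mm G N T S x s z y = 0 then 0 else φ x s z y) ≤
      K * (Fintype.card V : ℝ) ^ ((Fintype.card C - #T) + (Fintype.card B - #S))) :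
    EP G N (fun x s z y => Real.log (φ x s z y)) ≤
      EP G N (fun x s z y => Real.log (mm G N T S x s z y)) + Real.log K := by
  have hmne : ∀ x s z y, rho G N x s z y ≠ 0 → mm G N T S x s z y ≠ 0 := by
    intro x s z y h hm
    apply h
    unfold rho
    have : mm G N (cc N) univ x s z y = 0 := by
      unfold mm at hm ⊢
      rcases mul_eq_zero.1 hm with h1 | h1
      · rcases mul_eq_zero.1 h1 with h2 | h2
        · simp [h2]
        · obtain ⟨c, hc, hc'⟩ := Finset.prod_eq_zero_iff.1 h2
          have : ∏ c ∈ cc N, G x s (z c) / d G x s = 0 := Finset.prod_eq_zero (hT hc) hc'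
          simp [this]
      · obtain ⟨b, hb, hb'⟩ := Finset.prod_eq_zero_iff.1 h1
        have : ∏ b, K2 G N x z b (y b) = 0 := Finset.prod_eq_zero (mem_univ b) hb'
        simp [this]
    rw [this, zero_mul]
  by_cases hVe : IsEmpty V
  · exact absurd (by simp [M]) hM
  rw [not_isEmpty_iff] at hVe
  have hn : (0 : ℝ) < Fintype.card V := by exact_mod_cast Fintype.card_pos
  set ψ : V → V → (C → V) → (B → V) → ℝ := fun x s z y => φ x s z y / (mm G N T S x s z y * K)
    with hψd
  have hψ1 : EP G N ψ ≤ 1 := by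
    have hm := marginal (N := N) hG T S hT hST ψ
      (fun x s z y => div_nonneg (h0 _ _ _ _) (mul_nonneg (mm_nonneg hG _ _ _ _ _ _) hK.le)) ?_
    · refine hm.trans ?_
      have h2 : ex (fun x s z y => mm G N T S x s z y * ψ x s z y) =
          K⁻¹ * ex (fun x s z y => if mm G N T S x s z y = 0 then 0 else φ x s z y) := by
        rw [← ex_const_mul]
        refine ex_congr fun x s z y => ?_
        simp only [hψd]
        split_ifs with h
        · simp [h]
        · field_simp
      rw [h2]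
      have h3 : K⁻¹ * ex (fun x s z y => if mm G N T S x s z y = 0 then 0 else φ x s z y) ≤
          (Fintype.card V : ℝ) ^ ((Fintype.card C - #T) + (Fintype.card B - #S)) := by
        rw [inv_mul_le_iff₀ hK]
        exact hsum
      calc _ ≤ (1 / (Fintype.card V : ℝ)) ^ ((Fintype.card C - #T) + (Fintype.card B - #S)) *
            (Fintype.card V : ℝ) ^ ((Fintype.card C - #T) + (Fintype.card B - #S)) :=
            mul_le_mul_of_nonneg_left h3 (by positivity)
        _ = 1 := by
          rw [← mul_pow, one_div, inv_mul_cancel₀ hn.ne', one_pow]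
    · intro x s z z' y y' hz hy
      simp only [hψd]
      rw [hφ x s z z' y y' hz hy]
      congr 2
      unfold mm
      congr 1
      · congr 1
        exact Finset.prod_congr rfl fun c hc => by rw [hz c hc]
      · refine Finset.prod_congr rfl fun b hb => ?_
        rw [hy b hb]
        exact K2_congr _ fun c hc => hz c (hST b hb hc)
  have h1 : EP G N (fun x s z y => Real.log (φ x s z y)) ≤
      EP G N (fun x s z y => (Real.log (mm G N T S x s z y) + Real.log K) + (ψ x s z y - 1)) := by
    refine EP_mono hG fun x s z y h => ?_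
    have hm := hmne x s z y h
    have hmp : 0 < mm G N T S x s z y := lt_of_le_of_ne (mm_nonneg hG _ _ _ _ _ _) (Ne.symm hm)
    have hφp : 0 < φ x s z y := lt_of_le_of_ne (h0 _ _ _ _) (Ne.symm (hpos x s z y h))
    have hψp : 0 < ψ x s z y := div_pos hφp (mul_pos hmp hK)
    have := Real.log_le_sub_one_of_pos hψp
    simp only [hψd] at this ⊢
    rw [Real.log_div hφp.ne' (mul_pos hmp hK).ne', Real.log_mul hmp.ne' hK.ne'] at this
    linarith
  have h2 : EP G N (fun x s z y => (Real.log (mm G N T S x s z y) + Real.log K) + (ψ x s z y - 1))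
      = EP G N (fun x s z y => Real.log (mm G N T S x s z y)) + Real.log K +
        (EP G N ψ - 1) := by
    have e1 : EP G N (fun x s z y => (Real.log (mm G N T S x s z y) + Real.log K) +
        (ψ x s z y - 1)) = EP G N (fun x s z y => (Real.log (mm G N T S x s z y) +
          (Real.log K - 1)) + ψ x s z y) := EP_congr fun x s z y _ => by ring
    rw [e1, EP_add (fun x s z y => Real.log (mm G N T S x s z y) + (Real.log K - 1)) ψ,
      EP_add (fun x s z y => Real.log (mm G N T S x s z y)) (fun _ _ _ _ => Real.log K - 1),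
      EP_const hG h01 hM]
    ring
  rw [h2] at h1
  linarith


lemma supp (h01 : ∀ x y z, G x y z ≠ 0 → G x y z = 1) {x s : V} {z : C → V} {y : B → V}
    (h : rho G N x s z y ≠ 0) :
    d G x s ≠ 0 ∧ (∀ c ∈ cc N, G x s (z c) = 1) ∧ (∀ b, ∀ c ∈ N b, G x (y b) (z c) = 1) ∧
      (∀ b, cn G N x z b ≠ 0) := by
  unfold rho mm at h
  have h1 := left_ne_zero_of_mul h
  have h2 := left_ne_zero_of_mul h1
  have h3 := right_ne_zero_of_mul h1
  have h4 := left_ne_zero_of_mul h2
  have h5 := right_ne_zero_of_mul h2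
  refine ⟨fun h0 => h4 (by rw [h0, zero_div]), ?_, ?_, ?_⟩
  · intro c hc
    apply h01
    intro h0
    exact h5 (Finset.prod_eq_zero hc (by rw [h0, zero_div]))
  · intro b c hc
    apply h01
    intro h0
    refine h3 (Finset.prod_eq_zero (mem_univ b) ?_)
    unfold K2
    rw [Finset.prod_eq_zero hc h0, zero_div]
  · intro b h0
    refine h3 (Finset.prod_eq_zero (mem_univ b) ?_)
    unfold K2
    rw [h0, div_zero]

lemma EP_log_mm (hG : ∀ x y z, 0 ≤ G x y z) (h01 : ∀ x y z, G x y z ≠ 0 → G x y z = 1)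
    (hM : M G ≠ 0) (T : Finset C) (S : Finset B) (hT : T ⊆ cc N) :
    EP G N (fun x s z y => Real.log (mm G N T S x s z y)) =
      (1 - (#T : ℝ)) * EP G N (fun x s _ _ => Real.log (d G x s)) - Real.log (M G) -
        ∑ b ∈ S, EP G N (fun x _ z _ => Real.log (cn G N x z b)) := by
  have h1 : EP G N (fun x s z y => Real.log (mm G N T S x s z y)) =
      EP G N (fun x s z y => (1 - (#T : ℝ)) * Real.log (d G x s) + (- Real.log (M G) +
        (-1 : ℝ) * ∑ b ∈ S, Real.log (cn G N x z b))) := by
    refine EP_congr fun x s z y h => ?_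
    obtain ⟨hd, hc, hy, hg⟩ := supp h01 h
    have e1 : (∏ c ∈ T, G x s (z c) / d G x s) = (d G x s)⁻¹ ^ #T := by
      rw [← Finset.prod_const]
      refine Finset.prod_congr rfl fun c hcT => ?_
      rw [hc c (hT hcT), one_div]
    have e2 : (∏ b ∈ S, K2 G N x z b (y b)) = ∏ b ∈ S, (cn G N x z b)⁻¹ := by
      refine Finset.prod_congr rfl fun b _ => ?_
      unfold K2
      rw [Finset.prod_eq_one fun c hcN => hy b c hcN, one_div]
    unfold mm
    rw [e1, e2, Real.log_mul, Real.log_mul, Real.log_div hd hM, Real.log_pow, Real.log_inv,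
      Real.log_prod]
    · simp only [Real.log_inv, Finset.sum_neg_distrib]
      ring
    · intro b _; exact inv_ne_zero (hg b)
    · exact div_ne_zero hd hM
    · exact pow_ne_zero _ (inv_ne_zero hd)
    · exact mul_ne_zero (div_ne_zero hd hM) (pow_ne_zero _ (inv_ne_zero hd))
    · exact Finset.prod_ne_zero_iff.2 fun b _ => inv_ne_zero (hg b)
  rw [h1, EP_add (fun x s z y => (1 - (#T : ℝ)) * Real.log (d G x s)),
    EP_const_mul, EP_add (fun _ _ _ _ => - Real.log (M G)), EP_const hG h01 hM, EP_const_mul,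
    EP_sum]
  ring

lemma ex_one : ex (fun (_ _ : V) (_ : C → V) (_ : B → V) => (1 : ℝ)) =
    (Fintype.card V : ℝ) ^ (2 + Fintype.card C + Fintype.card B) := by
  simp only [ex, Finset.sum_const, Finset.card_univ, nsmul_eq_mul, mul_one, Fintype.card_fun,
    Nat.cast_pow]
  ring

lemma Ld_bound (hG : ∀ x y z, 0 ≤ G x y z) (h01 : ∀ x y z, G x y z ≠ 0 → G x y z = 1)
    (hM : M G ≠ 0) (hn : (0 : ℝ) < Fintype.card V) :
    Real.log (M G) - 2 * Real.log (Fintype.card V) ≤
      EP G N (fun x s _ _ => Real.log (d G x s)) := by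
  have h := log_bound (N := N) hG h01 hM ∅ ∅ (Finset.empty_subset _) (by simp)
    (fun _ _ _ _ => 1) (fun _ _ _ _ => zero_le_one) (fun _ _ _ _ _ _ _ _ => rfl)
    (fun _ _ _ _ _ => one_ne_zero) ((Fintype.card V : ℝ) ^ 2) (by positivity) ?_
  · rw [EP_log_mm hG h01 hM _ _ (Finset.empty_subset _)] at h
    simp only [Real.log_one] at h
    rw [EP_const hG h01 hM, Real.log_pow] at h
    simp at h
    linarith
  · refine (ex_mono (F' := fun _ _ _ _ => 1) fun x s z y => ?_).trans ?_
    · split_ifs <;> norm_num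
    · rw [ex_one, ← pow_add]
      simp [add_assoc]

lemma Lg_bound (hG : ∀ x y z, 0 ≤ G x y z) (h01 : ∀ x y z, G x y z ≠ 0 → G x y z = 1)
    (hM : M G ≠ 0) (hn : (0 : ℝ) < Fintype.card V) (b : B) :
    (#(N b) : ℝ) * (Real.log (M G) - 3 * Real.log (Fintype.card V)) +
      Real.log (Fintype.card V) ≤ EP G N (fun x _ z _ => Real.log (cn G N x z b)) := by
  rcases (N b).eq_empty_or_nonempty with hb | hb
  · have : ∀ (x : V) (z : C → V), cn G N x z b = Fintype.card V := by
      intro x z
      simp [cn, hb]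
    simp only [this]
    rw [EP_const hG h01 hM, hb]
    simp
  · have hL := Ld_bound (N := N) hG h01 hM hn
    have hcard : 1 ≤ #(N b) := hb.card_pos
    have hle : #(N b) ≤ Fintype.card C := Finset.card_le_univ _
    have h := log_bound (N := N) hG h01 hM (N b) ∅ (N_sub_cc b) (by simp)
      (fun x _ z _ => (cn G N x z b)⁻¹) (fun x _ z _ => inv_nonneg.2 (cn_nonneg hG _ _ _))
      (fun x s z z' y y' hz _ => by
        show (cn G N x z b)⁻¹ = (cn G N x z' b)⁻¹
        rw [cn_congr hz])
      (fun x s z y h => inv_ne_zero ((supp h01 h).2.2.2 b))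
      ((Fintype.card V : ℝ) ^ (#(N b) + 1)) (by positivity) ?_
    · rw [EP_log_mm hG h01 hM _ _ (N_sub_cc b)] at h
      simp only [Real.log_inv] at h
      have e : EP G N (fun x _ z _ => - Real.log (cn G N x z b)) =
          - EP G N (fun x _ z _ => Real.log (cn G N x z b)) := by
        have := EP_const_mul (G := G) (N := N) (-1) (fun x _ z _ => Real.log (cn G N x z b))
        rw [neg_one_mul] at this
        rw [← this]
        exact EP_congr fun x s z y _ => by ring
      rw [e, Real.log_pow] at h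
      simp only [Finset.sum_empty] at h
      push_cast at h
      have hc1 : (1 : ℝ) ≤ #(N b) := by exact_mod_cast hcard
      have hmul := mul_le_mul_of_nonneg_left hL (sub_nonneg.2 hc1)
      nlinarith [hmul, h]
    · -- counting
      have step : ex (fun x s z (y : B → V) => if mm G N (N b) ∅ x s z y = 0 then 0 else
          (cn G N x z b)⁻¹) ≤ ex (fun x s z (_ : B → V) =>
            (∏ c ∈ N b, G x s (z c)) * (cn G N x z b)⁻¹) := by
        refine ex_mono fun x s z y => ?_
        split_ifs with h0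
        · exact mul_nonneg (Finset.prod_nonneg fun c _ => hG _ _ _)
            (inv_nonneg.2 (cn_nonneg hG _ _ _))
        · have : ∏ c ∈ N b, G x s (z c) = 1 := by
            refine Finset.prod_eq_one fun c hc => h01 _ _ _ fun h1 => h0 ?_
            unfold mm
            have : ∏ c ∈ N b, G x s (z c) / d G x s = 0 :=
              Finset.prod_eq_zero hc (by rw [h1, zero_div])
            rw [this, mul_zero, zero_mul]
          rw [this, one_mul]
      refine step.trans ?_
      unfold ex
      have h2 : ∀ x : V, ∑ s, ∑ z : C → V, ∑ _y : B → V,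
          (∏ c ∈ N b, G x s (z c)) * (cn G N x z b)⁻¹ ≤
          ∑ _z : C → V, ∑ _y : B → V, (1 : ℝ) := by
        intro x
        rw [Finset.sum_comm]
        refine Finset.sum_le_sum fun z _ => ?_
        rw [Finset.sum_comm]
        refine Finset.sum_le_sum fun y _ => ?_
        rw [← Finset.sum_mul]
        exact mul_inv_le_one
      refine (Finset.sum_le_sum fun x _ => h2 x).trans ?_
      simp only [Finset.sum_const, Finset.card_univ, nsmul_eq_mul, mul_one, Fintype.card_fun,
        Nat.cast_pow]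
      rw [← pow_add, ← pow_add, ← pow_succ']
      apply le_of_eq
      congr 1
      simp
      omega


/-- common neighbourhood count of the link pairs -/
noncomputable def ff (G : V → V → V → ℝ) (L : Finset (B × C)) (z : C → V) (y : B → V) : ℝ :=
  ∑ x, ∏ q ∈ L, G x (y q.1) (z q.2)

lemma ff_nonneg (hG : ∀ x y z, 0 ≤ G x y z) (L : Finset (B × C)) (z : C → V) (y : B → V) :
    0 ≤ ff G L z y :=
  Finset.sum_nonneg fun _ _ => Finset.prod_nonneg fun _ _ => hG _ _ _

lemma ff_ne_zero (hG : ∀ x y z, 0 ≤ G x y z) (h01 : ∀ x y z, G x y z ≠ 0 → G x y z = 1)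
    {L : Finset (B × C)} (hL : ∀ q ∈ L, q.2 ∈ N q.1) {x s : V} {z : C → V} {y : B → V}
    (h : rho G N x s z y ≠ 0) : ff G L z y ≠ 0 := by
  have h1 : ∏ q ∈ L, G x (y q.1) (z q.2) = 1 :=
    Finset.prod_eq_one fun q hq => (supp h01 h).2.2.1 q.1 q.2 (hL q hq)
  have h2 : (1 : ℝ) ≤ ff G L z y := by
    rw [← h1]
    exact Finset.single_le_sum (f := fun x => ∏ q ∈ L, G x (y q.1) (z q.2))
      (fun v _ => Finset.prod_nonneg fun c _ => hG _ _ _) (mem_univ x)
  linarith

lemma p_log_le (hG : ∀ x y z, 0 ≤ G x y z) (h01 : ∀ x y z, G x y z ≠ 0 → G x y z = 1)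
    (hM : M G ≠ 0) (hn : (0 : ℝ) < Fintype.card V) :
    Real.log (M G) - 3 * Real.log (Fintype.card V) ≤ 0 := by
  have h1 : M G ≤ (Fintype.card V : ℝ) ^ 3 := by
    have : M G ≤ ∑ _x : V, ∑ _y : V, ∑ _z : V, (1 : ℝ) := by
      unfold M
      refine Finset.sum_le_sum fun x _ => Finset.sum_le_sum fun y _ =>
        Finset.sum_le_sum fun z _ => ?_
      by_cases h : G x y z = 0
      · rw [h]; exact zero_le_one
      · rw [h01 _ _ _ h]
    refine this.trans (le_of_eq ?_)
    simp only [Finset.sum_const, Finset.card_univ, nsmul_eq_mul, mul_one]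
    ring
  have h2 : 0 < M G := lt_of_le_of_ne (M_nonneg hG) (Ne.symm hM)
  have h3 := Real.log_le_log h2 h1
  rw [Real.log_pow] at h3
  push_cast at h3
  linarith

lemma ff_bound (hG : ∀ x y z, 0 ≤ G x y z) (h01 : ∀ x y z, G x y z ≠ 0 → G x y z = 1)
    (hM : M G ≠ 0) (hn : (0 : ℝ) < Fintype.card V) (L : Finset (B × C)) (S : Finset B)
    (hL : ∀ q ∈ L, q.1 ∈ S ∧ q.2 ∈ N q.1) :
    ((#(S.biUnion N) : ℝ) + ∑ b ∈ S, (#(N b) : ℝ)) *
        (Real.log (M G) - 3 * Real.log (Fintype.card V)) +
      Real.log (Fintype.card V) ≤ EP G N (fun _ _ z y => Real.log (ff G L z y)) := by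
  have hp := p_log_le hG h01 hM hn
  rcases L.eq_empty_or_nonempty with hL0 | hL0
  · have : ∀ (z : C → V) (y : B → V), ff G L z y = Fintype.card V := by
      intro z y
      simp [ff, hL0]
    simp only [this]
    rw [EP_const hG h01 hM]
    have h0 : (0 : ℝ) ≤ (#(S.biUnion N) : ℝ) + ∑ b ∈ S, (#(N b) : ℝ) := by positivity
    nlinarith [mul_nonneg h0 (neg_nonneg.2 hp)]
  · set T := S.biUnion N with hTd
    have hTne : T.Nonempty := by
      obtain ⟨q, hq⟩ := hL0
      exact ⟨q.2, Finset.mem_biUnion.2 ⟨q.1, (hL q hq).1, (hL q hq).2⟩⟩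
    have hTcc : T ⊆ cc N := Finset.biUnion_subset_biUnion_of_subset_left N (Finset.subset_univ _)
    have hST : ∀ b ∈ S, N b ⊆ T := fun b hb => Finset.subset_biUnion_of_mem N hb
    have hLd := Ld_bound (N := N) hG h01 hM hn
    have hcard : 1 ≤ #T := hTne.card_pos
    have hle : #T ≤ Fintype.card C := Finset.card_le_univ _
    have hle2 : #S ≤ Fintype.card B := Finset.card_le_univ _
    have h := log_bound (N := N) hG h01 hM T S hTcc hST
      (fun _ _ z y => (ff G L z y)⁻¹) (fun _ _ z y => inv_nonneg.2 (ff_nonneg hG _ _ _))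
      (fun x s z z' y y' hz hy => by
        show (ff G L z y)⁻¹ = (ff G L z' y')⁻¹
        congr 1
        unfold ff
        refine Finset.sum_congr rfl fun x _ => Finset.prod_congr rfl fun q hq => ?_
        rw [hy q.1 (hL q hq).1, hz q.2 (hST q.1 (hL q hq).1 (hL q hq).2)])
      (fun x s z y h => inv_ne_zero (ff_ne_zero hG h01 (fun q hq => (hL q hq).2) h))
      ((Fintype.card V : ℝ) ^ (#T + #S + 1)) (by positivity) ?_
    · rw [EP_log_mm hG h01 hM _ _ hTcc] at h
      simp only [Real.log_inv] at h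
      have e : EP G N (fun _ _ z y => - Real.log (ff G L z y)) =
          - EP G N (fun _ _ z y => Real.log (ff G L z y)) := by
        have := EP_const_mul (G := G) (N := N) (-1) (fun _ _ z y => Real.log (ff G L z y))
        rw [neg_one_mul] at this
        rw [← this]
        exact EP_congr fun x s z y _ => by ring
      rw [e, Real.log_pow] at h
      push_cast at h
      have hc1 : (1 : ℝ) ≤ #T := by exact_mod_cast hcard
      have hmul := mul_le_mul_of_nonneg_left hLd (sub_nonneg.2 hc1)
      have hsum : ∑ b ∈ S, ((#(N b) : ℝ) * (Real.log (M G) - 3 * Real.log (Fintype.card V)) +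
          Real.log (Fintype.card V)) ≤
          ∑ b ∈ S, EP G N (fun x _ z _ => Real.log (cn G N x z b)) :=
        Finset.sum_le_sum fun b _ => Lg_bound hG h01 hM hn b
      rw [Finset.sum_add_distrib, ← Finset.sum_mul, Finset.sum_const, nsmul_eq_mul] at hsum
      nlinarith [hmul, h, hsum]
    · have step : ex (fun x s z (y : B → V) => if mm G N T S x s z y = 0 then 0 else
          (ff G L z y)⁻¹) ≤ ex (fun x _ z (y : B → V) =>
            (∏ q ∈ L, G x (y q.1) (z q.2)) * (ff G L z y)⁻¹) := by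
        refine ex_mono fun x s z y => ?_
        split_ifs with h0
        · exact mul_nonneg (Finset.prod_nonneg fun c _ => hG _ _ _)
            (inv_nonneg.2 (ff_nonneg hG _ _ _))
        · have : ∏ q ∈ L, G x (y q.1) (z q.2) = 1 := by
            refine Finset.prod_eq_one fun q hq => h01 _ _ _ fun h1 => h0 ?_
            unfold mm
            have : ∏ b ∈ S, K2 G N x z b (y b) = 0 := by
              refine Finset.prod_eq_zero (hL q hq).1 ?_
              unfold K2
              rw [Finset.prod_eq_zero (hL q hq).2 h1, zero_div]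
            rw [this, mul_zero]
          rw [this, one_mul]
      refine step.trans ?_
      unfold ex
      rw [Finset.sum_comm]
      have h2 : ∀ _s : V, ∑ x : V, ∑ z : C → V, ∑ y : B → V,
          (∏ q ∈ L, G x (y q.1) (z q.2)) * (ff G L z y)⁻¹ ≤
          ∑ _z : C → V, ∑ _y : B → V, (1 : ℝ) := by
        intro _
        rw [Finset.sum_comm]
        refine Finset.sum_le_sum fun z _ => ?_
        rw [Finset.sum_comm]
        refine Finset.sum_le_sum fun y _ => ?_
        rw [← Finset.sum_mul]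
        exact mul_inv_le_one
      refine (Finset.sum_le_sum fun x _ => h2 x).trans ?_
      simp only [Finset.sum_const, Finset.card_univ, nsmul_eq_mul, mul_one, Fintype.card_fun,
        Nat.cast_pow]
      rw [← pow_add, ← pow_add, ← pow_succ']
      apply le_of_eq
      congr 1
      omega

lemma core_pos {A : Type} [Fintype A] (hG : ∀ x y z, 0 ≤ G x y z)
    (h01 : ∀ x y z, G x y z ≠ 0 → G x y z = 1)
    (hM : M G ≠ 0) (L : A → Finset (B × C)) (S : A → Finset B)
    (hL : ∀ a, ∀ q ∈ L a, q.1 ∈ S a ∧ q.2 ∈ N q.1) :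
    0 < ∑ z : C → V, ∑ y : B → V, ∏ a, ff G (L a) z y := by
  set hom := ∑ z : C → V, ∑ y : B → V, ∏ a, ff G (L a) z y with hhom
  have hhom0 : 0 ≤ hom := Finset.sum_nonneg fun z _ => Finset.sum_nonneg fun y _ =>
    Finset.prod_nonneg fun a _ => ff_nonneg hG _ _ _
  by_contra hcon
  have h0 : hom = 0 := le_antisymm (not_lt.1 hcon) hhom0
  have hz : ∀ z : C → V, ∀ y : B → V, ∏ a, ff G (L a) z y = 0 := by
    intro z y
    have h1 := (Finset.sum_eq_zero_iff_of_nonneg (fun z _ => Finset.sum_nonneg fun y _ =>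
      Finset.prod_nonneg fun a _ => ff_nonneg hG _ _ _)).1 h0 z (mem_univ _)
    exact (Finset.sum_eq_zero_iff_of_nonneg (fun y _ =>
      Finset.prod_nonneg fun a _ => ff_nonneg hG _ _ _)).1 h1 y (mem_univ _)
  have hr : ∀ x s z y, rho G N x s z y = 0 := by
    intro x s z y
    by_contra h
    obtain ⟨a, _, ha⟩ := Finset.prod_eq_zero_iff.1 (hz z y)
    exact ff_ne_zero hG h01 (fun q hq => (hL a q hq).2) h ha
  have := rho_total (N := N) hG h01 hM
  simp [ex, hr] at this

/-- main analytic estimate -/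
theorem core_bound {A : Type} [Fintype A] (hG : ∀ x y z, 0 ≤ G x y z)
    (h01 : ∀ x y z, G x y z ≠ 0 → G x y z = 1)
    (hM : M G ≠ 0) (hn : (0 : ℝ) < Fintype.card V) (L : A → Finset (B × C)) (S : A → Finset B)
    (hL : ∀ a, ∀ q ∈ L a, q.1 ∈ S a ∧ q.2 ∈ N q.1) (hcc : (cc N).Nonempty) :
    ((#(cc N) : ℝ) + ∑ b, (#(N b) : ℝ) +
      ∑ a, ((#((S a).biUnion N) : ℝ) + ∑ b ∈ S a, (#(N b) : ℝ))) *
        (Real.log (M G) - 3 * Real.log (Fintype.card V)) +
      (Fintype.card A + Fintype.card B + Fintype.card C : ℝ) * Real.log (Fintype.card V) ≤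
      Real.log (∑ z : C → V, ∑ y : B → V, ∏ a, ff G (L a) z y) := by
  set hom := ∑ z : C → V, ∑ y : B → V, ∏ a, ff G (L a) z y with hhom
  have hhom0 : 0 ≤ hom := Finset.sum_nonneg fun z _ => Finset.sum_nonneg fun y _ =>
    Finset.prod_nonneg fun a _ => ff_nonneg hG _ _ _
  have hhomp : 0 < hom := core_pos (N := N) hG h01 hM L S hL
  have hLd := Ld_bound (N := N) hG h01 hM hn
  have hcard : 1 ≤ #(cc N) := hcc.card_pos
  have hle : #(cc N) ≤ Fintype.card C := Finset.card_le_univ _
  have h := log_bound (N := N) hG h01 hM (cc N) univ (Finset.Subset.refl _)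
    (fun b _ => N_sub_cc b)
    (fun _ _ z y => ∏ a, ff G (L a) z y)
    (fun _ _ z y => Finset.prod_nonneg fun a _ => ff_nonneg hG _ _ _)
    (fun x s z z' y y' hz hy => by
      show (∏ a, ff G (L a) z y) = ∏ a, ff G (L a) z' y'
      refine Finset.prod_congr rfl fun a _ => ?_
      unfold ff
      refine Finset.sum_congr rfl fun x _ => Finset.prod_congr rfl fun q hq => ?_
      rw [hy q.1 (mem_univ _), hz q.2 (N_sub_cc q.1 (hL a q hq).2)])
    (fun x s z y h => Finset.prod_ne_zero_iff.2 fun a _ =>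
      ff_ne_zero hG h01 (fun q hq => (hL a q hq).2) h)
    ((Fintype.card V : ℝ) ^ 2 * hom / (Fintype.card V : ℝ) ^ (Fintype.card C - #(cc N)))
    (by positivity) ?_
  · rw [EP_log_mm hG h01 hM _ _ (Finset.Subset.refl _)] at h
    have e1 : EP G N (fun _ _ z y => Real.log (∏ a, ff G (L a) z y)) =
        ∑ a, EP G N (fun _ _ z y => Real.log (ff G (L a) z y)) := by
      rw [← EP_sum]
      refine EP_congr fun x s z y h => ?_
      exact Real.log_prod fun a _ => ff_ne_zero hG h01 (fun q hq => (hL a q hq).2) h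
    rw [e1, Real.log_div (by positivity) (by positivity), Real.log_mul (by positivity) hhomp.ne',
      Real.log_pow, Real.log_pow, Nat.cast_sub hle] at h
    have hc1 : (1 : ℝ) ≤ #(cc N) := by exact_mod_cast hcard
    have hmul := mul_le_mul_of_nonneg_left hLd (sub_nonneg.2 hc1)
    have hsum : ∑ b, ((#(N b) : ℝ) * (Real.log (M G) - 3 * Real.log (Fintype.card V)) +
        Real.log (Fintype.card V)) ≤
        ∑ b, EP G N (fun x _ z _ => Real.log (cn G N x z b)) :=
      Finset.sum_le_sum fun b _ => Lg_bound hG h01 hM hn b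
    rw [Finset.sum_add_distrib, ← Finset.sum_mul, Finset.sum_const, nsmul_eq_mul,
      Finset.card_univ] at hsum
    have hsumA : ∑ a, (((#((S a).biUnion N) : ℝ) + ∑ b ∈ S a, (#(N b) : ℝ)) *
        (Real.log (M G) - 3 * Real.log (Fintype.card V)) + Real.log (Fintype.card V)) ≤
        ∑ a, EP G N (fun _ _ z y => Real.log (ff G (L a) z y)) :=
      Finset.sum_le_sum fun a _ => ff_bound hG h01 hM hn (L a) (S a) (hL a)
    rw [Finset.sum_add_distrib, ← Finset.sum_mul, Finset.sum_const, nsmul_eq_mul,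
      Finset.card_univ] at hsumA
    push_cast at h
    nlinarith [hmul, h, hsum, hsumA]
  · have step : ex (fun x s z (y : B → V) => if mm G N (cc N) univ x s z y = 0 then 0 else
        ∏ a, ff G (L a) z y) ≤ ex (fun _ _ z (y : B → V) => ∏ a, ff G (L a) z y) := by
      refine ex_mono fun x s z y => ?_
      split_ifs with h0
      · exact Finset.prod_nonneg fun a _ => ff_nonneg hG _ _ _
      · exact le_refl _
    refine step.trans (le_of_eq ?_)
    unfold ex
    simp only [Finset.sum_const, Finset.card_univ, nsmul_eq_mul, Nat.sub_self, add_zero]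
    rw [← hhom]
    field_simp

end core

/-- A 3-uniform hypergraph on the vertex set `V`, given by its set of edges. -/
structure ThreeGraph (V : Type) [DecidableEq V] where
  edges : Finset (Finset V)
  uniform : ∀ e ∈ edges, #e = 3

section statement
variable {W V : Type} [Fintype W] [DecidableEq W] [Fintype V] [DecidableEq V]

/-- The number of homomorphisms: maps of vertex sets sending every edge to an edge. -/
def homCount (H : ThreeGraph W) (G : ThreeGraph V) : ℕ :=
  Fintype.card {φ : W → V // ∀ e ∈ H.edges, e.image φ ∈ G.edges}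

/-- `κ` splits the vertices of `H` into three parts (labelled 0, 1, 2) such that every edge has
exactly one vertex in each part. -/
def IsTripartition (H : ThreeGraph W) (κ : W → Fin 3) : Prop :=
  ∀ e ∈ H.edges, ∀ i : Fin 3, ∃! w, w ∈ e ∧ κ w = i

/-- The vertices of part `i` that lie in a common edge with `b`. -/
def nbrs (H : ThreeGraph W) (κ : W → Fin 3) (b : W) (i : Fin 3) : Finset W :=
  univ.filter fun w => κ w = i ∧ ∃ e ∈ H.edges, b ∈ e ∧ w ∈ e

lemma edge_eq {H : ThreeGraph W} {κ : W → Fin 3} (hκ : IsTripartition H κ) {e : Finset W}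
    (he : e ∈ H.edges) : ∃ a b c, κ a = 0 ∧ κ b = 1 ∧ κ c = 2 ∧ e = {a, b, c} := by
  obtain ⟨a, ⟨hae, ha⟩, -⟩ := hκ e he 0
  obtain ⟨b, ⟨hbe, hb⟩, -⟩ := hκ e he 1
  obtain ⟨c, ⟨hce, hc⟩, -⟩ := hκ e he 2
  refine ⟨a, b, c, ha, hb, hc, ?_⟩
  symm
  apply Finset.eq_of_subset_of_card_le
  · intro w hw
    simp only [Finset.mem_insert, Finset.mem_singleton] at hw
    rcases hw with rfl | rfl | rfl <;> assumption
  · rw [H.uniform e he]
    have hab : a ≠ b := by rintro rfl; rw [ha] at hb; exact absurd hb (by decide)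
    have hac : a ≠ c := by rintro rfl; rw [ha] at hc; exact absurd hc (by decide)
    have hbc : b ≠ c := by rintro rfl; rw [hb] at hc; exact absurd hc (by decide)
    rw [Finset.card_eq_three.2 ⟨a, b, c, hab, hac, hbc, rfl⟩]

theorem main_bound (H : ThreeGraph W) (κ : W → Fin 3) (hκ : IsTripartition H κ)
    (G : ThreeGraph V) (p : ℝ) (hp : (#G.edges : ℝ) = p * (Fintype.card V : ℝ) ^ 3) :
    p ^ (4 * ∑ b ∈ univ.filter (fun b => κ b = 1), #(nbrs H κ b 0) * #(nbrs H κ b 2)) *
      (Fintype.card V : ℝ) ^ Fintype.card W ≤ homCount H G := by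
  classical
  -- trivial case: no edges in `H`
  rcases H.edges.eq_empty_or_nonempty with hE | hE
  · have h1 : ∀ b i, nbrs H κ b i = ∅ := by
      intro b i; simp [nbrs, hE]
    have h2 : homCount H G = Fintype.card V ^ Fintype.card W := by
      unfold homCount
      rw [← Fintype.card_fun]
      exact Fintype.card_congr (Equiv.subtypeUnivEquiv (by simp [hE]))
    simp [h1, h2]
  -- trivial case: no vertices in `V`
  rcases isEmpty_or_nonempty V with hV | hV
  · obtain ⟨e, he⟩ := hE
    obtain ⟨a, -⟩ := edge_eq hκ he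
    have : 0 < Fintype.card W := Fintype.card_pos_iff.2 ⟨a⟩
    simp [Fintype.card_eq_zero, this.ne']
  have hn : (0 : ℝ) < Fintype.card V := by exact_mod_cast Fintype.card_pos
  set n : ℝ := (Fintype.card V : ℝ) with hnd
  -- setting up the tripartite problem
  let A := {w : W // κ w = 0}
  let B := {w : W // κ w = 1}
  let C := {w : W // κ w = 2}
  let L : A → Finset (B × C) := fun a => univ.filter fun q => {a.1, q.1.1, q.2.1} ∈ H.edges
  let N : B → Finset C := fun b => univ.filter fun c => ∃ a : A, {a.1, b.1, c.1} ∈ H.edges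
  let S : A → Finset B := fun a => univ.filter fun b => ∃ c : C, {a.1, b.1, c.1} ∈ H.edges
  let R : B → Finset A := fun b => univ.filter fun a => ∃ c : C, {a.1, b.1, c.1} ∈ H.edges
  let g : V → V → V → ℝ := fun x y z => if ({x, y, z} : Finset V) ∈ G.edges then 1 else 0
  have hg0 : ∀ x y z, 0 ≤ g x y z := by
    intro x y z; simp only [g]; split_ifs <;> norm_num
  have hg1 : ∀ x y z, g x y z ≠ 0 → g x y z = 1 := by
    intro x y z h; simp only [g] at h ⊢; split_ifs at h ⊢ <;> simp_all
  have hL : ∀ a, ∀ q ∈ L a, q.1 ∈ S a ∧ q.2 ∈ N q.1 := by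
    intro a q hq
    simp only [L, Finset.mem_filter, Finset.mem_univ, true_and] at hq
    simp only [S, N, Finset.mem_filter, Finset.mem_univ, true_and]
    exact ⟨⟨q.2, hq⟩, ⟨a, hq⟩⟩
  have hcc : (cc N).Nonempty := by
    obtain ⟨e, he⟩ := hE
    obtain ⟨a, b, c, ha, hb, hc, rfl⟩ := edge_eq hκ he
    refine ⟨⟨c, hc⟩, Finset.mem_biUnion.2 ⟨⟨b, hb⟩, mem_univ _, ?_⟩⟩
    simp only [N, Finset.mem_filter, Finset.mem_univ, true_and]
    exact ⟨⟨a, ha⟩, he⟩
  -- exponent
  set Q : ℕ := #(cc N) + ∑ b, #(N b) + ∑ a, (#((S a).biUnion N) + ∑ b ∈ S a, #(N b)) with hQ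
  have hQle : Q ≤ 4 * ∑ b ∈ univ.filter (fun b => κ b = 1),
      #(nbrs H κ b 0) * #(nbrs H κ b 2) := by
    have e1 : ∑ b ∈ univ.filter (fun b => κ b = 1), #(nbrs H κ b 0) * #(nbrs H κ b 2) =
        ∑ b : B, #(nbrs H κ b.1 0) * #(nbrs H κ b.1 2) := by
      rw [← Finset.sum_subtype_eq_sum_filter, Finset.subtype_univ]
    have e2 : ∑ b : B, #(R b) * #(N b) ≤ ∑ b : B, #(nbrs H κ b.1 0) * #(nbrs H κ b.1 2) := by
      refine Finset.sum_le_sum fun b _ => Nat.mul_le_mul ?_ ?_
      · refine Finset.card_le_card_of_injOn (fun a => a.1) ?_ (Subtype.val_injective.injOn)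
        intro a ha
        simp only [R, Finset.coe_filter, Finset.mem_univ, true_and, Set.mem_setOf_eq] at ha
        obtain ⟨c, hc⟩ := ha
        simp only [nbrs, Finset.coe_filter, Finset.mem_univ, true_and, Set.mem_setOf_eq]
        exact ⟨a.2, _, hc, by simp, by simp⟩
      · refine Finset.card_le_card_of_injOn (fun a => a.1) ?_ (Subtype.val_injective.injOn)
        intro c hc
        simp only [N, Finset.coe_filter, Finset.mem_univ, true_and, Set.mem_setOf_eq] at hc
        obtain ⟨a, ha⟩ := hc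
        simp only [nbrs, Finset.coe_filter, Finset.mem_univ, true_and, Set.mem_setOf_eq]
        exact ⟨c.2, _, ha, by simp, by simp⟩
    have e3 : ∑ a, ∑ b ∈ S a, #(N b) = ∑ b : B, #(R b) * #(N b) := by
      have : ∀ a : A, ∑ b ∈ S a, #(N b) = ∑ b, if b ∈ S a then #(N b) else 0 := by
        intro a
        rw [Finset.sum_ite_mem, Finset.univ_inter]
      simp only [this]
      rw [Finset.sum_comm]
      refine Finset.sum_congr rfl fun b _ => ?_
      rw [← Finset.sum_filter, Finset.sum_const, smul_eq_mul]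
      congr 2
      ext a
      simp [S, R]
    have e4 : ∑ b : B, #(N b) ≤ ∑ b : B, #(R b) * #(N b) := by
      refine Finset.sum_le_sum fun b _ => ?_
      rcases (N b).eq_empty_or_nonempty with h | h
      · simp [h]
      · obtain ⟨c, hc⟩ := h
        simp only [N, Finset.mem_filter, Finset.mem_univ, true_and] at hc
        obtain ⟨a, ha⟩ := hc
        have : 1 ≤ #(R b) := by
          apply Finset.card_pos.2
          refine ⟨a, ?_⟩
          simp only [R, Finset.mem_filter, Finset.mem_univ, true_and]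
          exact ⟨c, ha⟩
        exact Nat.le_mul_of_pos_left _ this
    have e5 : #(cc N) ≤ ∑ b : B, #(N b) := Finset.card_biUnion_le
    have e6 : ∑ a, (#((S a).biUnion N) + ∑ b ∈ S a, #(N b)) ≤ 2 * ∑ a, ∑ b ∈ S a, #(N b) := by
      rw [Finset.mul_sum]
      refine Finset.sum_le_sum fun a _ => ?_
      have : #((S a).biUnion N) ≤ ∑ b ∈ S a, #(N b) := Finset.card_biUnion_le
      omega
    rw [e1]
    omega
  -- ordered edge count
  have hMG : (#G.edges : ℝ) ≤ M g := by
    have h1 : M g = (#(univ.filter fun t : V × V × V => ({t.1, t.2.1, t.2.2} : Finset V) ∈ G.edges) : ℝ) := by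
      rw [Finset.card_filter]
      push_cast
      rw [Fintype.sum_prod_type]
      simp only [Fintype.sum_prod_type]
      rfl
    rw [h1]
    have h2 : #G.edges ≤ #(univ.filter fun t : V × V × V => ({t.1, t.2.1, t.2.2} : Finset V) ∈ G.edges) := by
      refine Finset.card_le_card_of_surjOn (fun t : V × V × V => ({t.1, t.2.1, t.2.2} : Finset V)) ?_
      intro e he
      obtain ⟨x, y, z, -, -, -, rfl⟩ := Finset.card_eq_three.1 (G.uniform e he)
      refine ⟨(x, y, z), ?_, rfl⟩
      simpa using he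
    exact_mod_cast h2
  have hp0 : 0 ≤ p := by
    by_contra h
    have h1 : p * n ^ 3 < 0 := mul_neg_of_neg_of_pos (not_le.1 h) (by positivity)
    rw [← hp] at h1
    exact absurd h1 (not_lt.2 (by positivity))
  -- reduce to the case of positive p
  rcases hp0.eq_or_lt with hp00 | hppos
  · have hpos : 0 < 4 * ∑ b ∈ univ.filter (fun b => κ b = 1),
      #(nbrs H κ b 0) * #(nbrs H κ b 2) := by
      have : 0 < #(cc N) := hcc.card_pos
      omega
    rw [← hp00, zero_pow hpos.ne', zero_mul]
    positivity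
  have hGpos : (0 : ℝ) < #G.edges := by rw [hp]; positivity
  have hMpos : 0 < M g := lt_of_lt_of_le hGpos hMG
  have hcore := core_bound (N := N) hg0 hg1 hMpos.ne' hn L S hL hcc
  set P : ℝ := M g / n ^ 3 with hP
  have hPpos : 0 < P := by positivity
  have hlogP : Real.log (M g) - 3 * Real.log n = Real.log P := by
    rw [hP, Real.log_div hMpos.ne' (by positivity), Real.log_pow]
    push_cast; ring
  have hPle : P ≤ 1 := by
    have := p_log_le hg0 hg1 hMpos.ne' hn
    rw [hlogP] at this
    by_contra hcon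
    exact absurd (Real.log_pos (not_le.1 hcon)) (not_lt.2 this)
  have hpP : p ≤ P := by
    rw [hP, le_div_iff₀ (by positivity), ← hp]
    exact hMG
  set hom : ℝ := ∑ z : C → V, ∑ y : B → V, ∏ a, ff g (L a) z y with hhom
  have hcard : Fintype.card W = Fintype.card A + Fintype.card B + Fintype.card C := by
    have h1 : ∀ i : Fin 3, Fintype.card {w : W // κ w = i} = #(univ.filter fun w => κ w = i) := by
      intro i
      rw [Fintype.card_subtype]
    have h2 : Fintype.card W = ∑ i : Fin 3, #(univ.filter fun w => κ w = i) := by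
      rw [← Finset.card_univ]
      exact Finset.card_eq_sum_card_fiberwise (fun _ _ => mem_univ _)
    rw [h2, Fin.sum_univ_three, h1, h1, h1]
  rw [hlogP] at hcore
  have hQr : ((#(cc N) : ℝ) + ∑ b, (#(N b) : ℝ) +
      ∑ a, ((#((S a).biUnion N) : ℝ) + ∑ b ∈ S a, (#(N b) : ℝ))) = (Q : ℝ) := by
    rw [hQ]; push_cast; rfl
  rw [hQr] at hcore
  have hKr : (Fintype.card A + Fintype.card B + Fintype.card C : ℝ) = (Fintype.card W : ℝ) := by
    rw [hcard]; push_cast; rfl
  rw [hKr] at hcore
  have hhomnn : 0 ≤ hom := Finset.sum_nonneg fun z _ => Finset.sum_nonneg fun y _ =>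
    Finset.prod_nonneg fun a _ => ff_nonneg hg0 _ _ _
  have hlog2 : Real.log (P ^ Q * n ^ Fintype.card W) ≤ Real.log hom := by
    rw [Real.log_mul (by positivity) (by positivity), Real.log_pow, Real.log_pow]
    exact hcore
  -- counting homomorphisms
  have hcount : hom ≤ homCount H G := by
    have h1 : hom = ∑ z : C → V, ∑ y : B → V, ∑ x : A → V, ∏ a, ∏ q ∈ L a, g (x a) (y q.1) (z q.2) := by
      rw [hhom]
      refine Finset.sum_congr rfl fun z _ => Finset.sum_congr rfl fun y _ => ?_
      unfold ff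
      exact (sum_prod_pi (fun (a : A) (v : V) => ∏ q ∈ L a, g v (y q.1) (z q.2))).symm
    have h2 : hom = (#(univ.filter fun t : (C → V) × (B → V) × (A → V) =>
        ∀ a, ∀ q ∈ L a, ({t.2.2 a, t.2.1 q.1, t.1 q.2} : Finset V) ∈ G.edges) : ℝ) := by
      rw [h1, Finset.card_filter]
      push_cast
      rw [Fintype.sum_prod_type]
      refine Finset.sum_congr rfl fun z _ => ?_
      rw [Fintype.sum_prod_type]
      refine Finset.sum_congr rfl fun y _ => Finset.sum_congr rfl fun x _ => ?_
      split_ifs with h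
      · refine Finset.prod_eq_one fun a _ => Finset.prod_eq_one fun q hq => ?_
        simp only [g]
        rw [if_pos (h a q hq)]
      · push Not at h
        obtain ⟨a, q, hq, hne⟩ := h
        refine Finset.prod_eq_zero (mem_univ a) (Finset.prod_eq_zero hq ?_)
        simp only [g]
        rw [if_neg hne]
    rw [h2]
    have h3 : #(univ.filter fun t : (C → V) × (B → V) × (A → V) =>
        ∀ a, ∀ q ∈ L a, ({t.2.2 a, t.2.1 q.1, t.1 q.2} : Finset V) ∈ G.edges) ≤ homCount H G := by
      unfold homCount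
      rw [← Fintype.card_subtype]
      let F : (C → V) × (B → V) × (A → V) → W → V := fun t w =>
        if h0 : κ w = 0 then t.2.2 ⟨w, h0⟩ else if h1 : κ w = 1 then t.2.1 ⟨w, h1⟩ else
          if h2 : κ w = 2 then t.1 ⟨w, h2⟩ else Classical.arbitrary V
      have hF0 : ∀ t (a : A), F t a.1 = t.2.2 a := by
        intro t a
        simp only [F, dif_pos a.2]
        rfl
      have hF1 : ∀ t (b : B), F t b.1 = t.2.1 b := by
        intro t b
        have h : ¬ κ b.1 = 0 := by rw [b.2]; decide
        simp only [F, dif_neg h, dif_pos b.2]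
        rfl
      have hF2 : ∀ t (c : C), F t c.1 = t.1 c := by
        intro t c
        have h : ¬ κ c.1 = 0 := by rw [c.2]; decide
        have h' : ¬ κ c.1 = 1 := by rw [c.2]; decide
        simp only [F, dif_neg h, dif_neg h', dif_pos c.2]
        rfl
      refine Fintype.card_le_of_injective (fun t => ⟨F t.1, ?_⟩) ?_
      · intro e he
        obtain ⟨a, b, c, ha, hb, hc, rfl⟩ := edge_eq hκ he
        have h := t.2 ⟨a, ha⟩ (⟨b, hb⟩, ⟨c, hc⟩) (by
          simp only [L, Finset.mem_filter, Finset.mem_univ, true_and]; exact he)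
        rw [Finset.image_insert, Finset.image_insert, Finset.image_singleton]
        have e0 := hF0 t.1 ⟨a, ha⟩
        have e1 := hF1 t.1 ⟨b, hb⟩
        have e2 := hF2 t.1 ⟨c, hc⟩
        simp only at e0 e1 e2
        rw [e0, e1, e2]
        exact h
      · intro t t' h
        have h' : F t.1 = F t'.1 := congrArg Subtype.val h
        apply Subtype.ext
        refine Prod.ext ?_ (Prod.ext ?_ ?_)
        · funext c
          rw [← hF2 t.1 c, ← hF2 t'.1 c, h']
        · funext b
          rw [← hF1 t.1 b, ← hF1 t'.1 b, h']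
        · funext a
          rw [← hF0 t.1 a, ← hF0 t'.1 a, h']
    exact_mod_cast h3
  have hhompos : 0 < hom := by
    by_contra hcon
    have h0 : hom = 0 := le_antisymm (not_lt.1 hcon) hhomnn
    -- the logarithm comparison does not exclude hom = 0, so use the lower bound directly
    exact absurd h0 (ne_of_gt (core_pos hg0 hg1 hMpos.ne' L S hL))
  have hfin : P ^ Q * n ^ Fintype.card W ≤ hom :=
    (Real.log_le_log_iff (by positivity) hhompos).1 hlog2
  calc p ^ (4 * ∑ b ∈ univ.filter (fun b => κ b = 1), #(nbrs H κ b 0) * #(nbrs H κ b 2)) *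
      n ^ Fintype.card W
      ≤ P ^ (4 * ∑ b ∈ univ.filter (fun b => κ b = 1), #(nbrs H κ b 0) * #(nbrs H κ b 2)) *
      n ^ Fintype.card W := by gcongr
    _ ≤ P ^ Q * n ^ Fintype.card W := by
      apply mul_le_mul_of_nonneg_right _ (by positivity)
      exact pow_le_pow_of_le_one hPpos.le hPle hQle
    _ ≤ hom := hfin
    _ ≤ homCount H G := hcount

lemma card_part_le {H : ThreeGraph W} {κ : W → Fin 3} (hκ : IsTripartition H κ) {e : Finset W}
    (he : e ∈ H.edges) (i : Fin 3) : #(e.filter fun w => κ w = i) ≤ 1 := by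
  rw [Finset.card_le_one]
  intro a ha b hb
  rw [Finset.mem_filter] at ha hb
  exact (hκ e he i).unique ha hb

lemma card_nbrs_le {H : ThreeGraph W} {κ : W → Fin 3} (hκ : IsTripartition H κ) (b : W)
    (i : Fin 3) : #(nbrs H κ b i) ≤ #(H.edges.filter fun e => b ∈ e) := by
  have h1 : nbrs H κ b i ⊆ (H.edges.filter fun e => b ∈ e).biUnion
      (fun e => e.filter fun w => κ w = i) := by
    intro w hw
    simp only [nbrs, Finset.mem_filter, Finset.mem_univ, true_and] at hw
    obtain ⟨hw, e, he, hbe, hwe⟩ := hw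
    exact Finset.mem_biUnion.2 ⟨e, Finset.mem_filter.2 ⟨he, hbe⟩, Finset.mem_filter.2 ⟨hwe, hw⟩⟩
  refine (Finset.card_le_card h1).trans (Finset.card_biUnion_le.trans ?_)
  calc _ ≤ ∑ e ∈ H.edges.filter (fun e => b ∈ e), 1 :=
        Finset.sum_le_sum fun e he => card_part_le hκ (Finset.mem_filter.1 he).1 i
    _ = _ := by simp

lemma sum_deg_le {H : ThreeGraph W} {κ : W → Fin 3} (hκ : IsTripartition H κ) :
    ∑ b ∈ univ.filter (fun b => κ b = 1), #(H.edges.filter fun e => b ∈ e) ≤ #H.edges := by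
  have h1 : ∀ b, #(H.edges.filter fun e => b ∈ e) = ∑ e ∈ H.edges, if b ∈ e then 1 else 0 := by
    intro b; rw [Finset.card_filter]
  simp only [h1]
  rw [Finset.sum_comm]
  calc _ ≤ ∑ e ∈ H.edges, 1 := by
        refine Finset.sum_le_sum fun e he => ?_
        rw [← Finset.card_filter]
        refine le_trans (le_of_eq ?_) (card_part_le hκ he 1)
        congr 1
        ext w
        simp only [Finset.mem_filter, Finset.mem_univ, true_and]
        tauto
    _ = _ := by simp

lemma exponent_le {H : ThreeGraph W} {κ : W → Fin 3} (hκ : IsTripartition H κ) (Δ : ℕ)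
    (hΔ : ∀ b, κ b = 1 → #(nbrs H κ b 0) ≤ Δ ∨ #(nbrs H κ b 2) ≤ Δ) :
    4 * ∑ b ∈ univ.filter (fun b => κ b = 1), #(nbrs H κ b 0) * #(nbrs H κ b 2) ≤
      4 * Δ * #H.edges := by
  rw [mul_assoc]
  refine Nat.mul_le_mul_left 4 ?_
  refine le_trans ?_ (Nat.mul_le_mul_left Δ (sum_deg_le hκ))
  rw [Finset.mul_sum]
  refine Finset.sum_le_sum fun b hb => ?_
  have hb' : κ b = 1 := (Finset.mem_filter.1 hb).2
  rcases hΔ b hb' with h | h
  · exact Nat.mul_le_mul h (card_nbrs_le hκ b 2)
  · rw [mul_comm]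
    exact Nat.mul_le_mul h (card_nbrs_le hκ b 0)

lemma density_le_one {G : ThreeGraph V} {p : ℝ} (hV : Nonempty V)
    (hp : (#G.edges : ℝ) = p * (Fintype.card V : ℝ) ^ 3) : 0 ≤ p ∧ p ≤ 1 := by
  have hn : (0 : ℝ) < Fintype.card V := by exact_mod_cast Fintype.card_pos
  constructor
  · by_contra h
    have h1 : p * (Fintype.card V : ℝ) ^ 3 < 0 :=
      mul_neg_of_neg_of_pos (not_le.1 h) (by positivity)
    rw [← hp] at h1
    exact absurd h1 (not_lt.2 (by positivity))
  · have h2 : #G.edges ≤ Fintype.card (V × V × V) := by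
      rw [← Finset.card_univ]
      refine Finset.card_le_card_of_surjOn (fun t : V × V × V => ({t.1, t.2.1, t.2.2} : Finset V)) ?_
      intro e he
      obtain ⟨x, y, z, -, -, -, rfl⟩ := Finset.card_eq_three.1 (G.uniform e he)
      exact ⟨(x, y, z), by simp, rfl⟩
    simp only [Fintype.card_prod] at h2
    have h3 : (#G.edges : ℝ) ≤ (Fintype.card V : ℝ) ^ 3 := by
      have : (#G.edges : ℝ) ≤ ((Fintype.card V * (Fintype.card V * Fintype.card V) : ℕ) : ℝ) := by
        exact_mod_cast h2
      refine this.trans (le_of_eq ?_)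
      push_cast; ring
    rw [hp] at h3
    have h4 : (0 : ℝ) < (Fintype.card V : ℝ) ^ 3 := by positivity
    by_contra hcon
    nlinarith [not_le.1 hcon]

/-- Polynomial-in-`p` counting of 3-partite 3-graphs whose middle part has small one-sided
neighbourhoods. -/
theorem result (W V : Type) [Fintype W] [DecidableEq W] [Fintype V] [DecidableEq V]
    (H : ThreeGraph W) (κ : W → Fin 3) (hκ : IsTripartition H κ)
    (G : ThreeGraph V) (p : ℝ) (hp : (#G.edges : ℝ) = p * (Fintype.card V : ℝ) ^ 3) :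
    p ^ (4 * ∑ b ∈ univ.filter (fun b => κ b = 1), #(nbrs H κ b 0) * #(nbrs H κ b 2)) *
      (Fintype.card V : ℝ) ^ Fintype.card W ≤ homCount H G ∧
    ∀ Δ : ℕ, (∀ b, κ b = 1 → #(nbrs H κ b 0) ≤ Δ ∨ #(nbrs H κ b 2) ≤ Δ) →
      p ^ (4 * Δ * #H.edges) * (Fintype.card V : ℝ) ^ Fintype.card W ≤ homCount H G := by
  have hmain := main_bound H κ hκ G p hp
  refine ⟨hmain, fun Δ hΔ => ?_⟩
  rcases isEmpty_or_nonempty V with hV | hV
  · rcases isEmpty_or_nonempty W with hW | hW
    · have hE : H.edges = ∅ := by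
        rw [Finset.eq_empty_iff_forall_notMem]
        intro e he
        obtain ⟨a, -⟩ := edge_eq hκ he
        exact hW.elim a
      simpa [hE] using hmain
    · have : 0 < Fintype.card W := Fintype.card_pos
      simp [Fintype.card_eq_zero, this.ne']
  · obtain ⟨h0, h1⟩ := density_le_one hV hp
    refine le_trans ?_ hmain
    apply mul_le_mul_of_nonneg_right _ (by positivity)
    exact pow_le_pow_of_le_one h0 h1 (exponent_le hκ Δ hΔ)

end statement

end Pool.Agent.Results.MP_af588c_co.BoundedLink
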